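import Mathlib

/-! Bilinear arrays `x_i y_j + w` and `x_i + y_j` never have semi-magic cubes. -/

set_option autoImplicit false

namespace Pool.Agent.H54.SC

/-- coefficients of a cubic polynomial with three distinct roots. -/
theorem vieta {A B C D x y z : ℝ} (hxy : x ≠ y) (hxz : x ≠ z) (hyz : y ≠ z)
    (hx : A * x ^ 3 + B * x ^ 2 + C * x + D = 0) (hy : A * y ^ 3 + B * y ^ 2 + C * y + D = 0)
    (hz : A * z ^ 3 + B * z ^ 2 + C * z + D = 0) :
    B = -(A * (x + y + z)) ∧ C = A * (x * y + x * z + y * z) ∧ D = -(A * (x * y * z)) := by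
  have h1 : A * (x ^ 2 + x * y + y ^ 2) + B * (x + y) + C = 0 := by
    apply mul_left_cancel₀ (sub_ne_zero.2 hxy)
    linear_combination hx - hy
  have h2 : A * (x ^ 2 + x * z + z ^ 2) + B * (x + z) + C = 0 := by
    apply mul_left_cancel₀ (sub_ne_zero.2 hxz)
    linear_combination hx - hz
  have h3 : A * (x + y + z) + B = 0 := by
    apply mul_left_cancel₀ (sub_ne_zero.2 hyz)
    linear_combination h1 - h2
  have hB : B = -(A * (x + y + z)) := by linarith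
  have hC : C = A * (x * y + x * z + y * z) := by
    rw [hB] at h1
    linear_combination h1
  refine ⟨hB, hC, ?_⟩
  rw [hB, hC] at hx
  linear_combination hx

/-- three real numbers are never `x_i` with the power sums of a bilinear array. -/
theorem real_cubic {x y z l : ℝ} (hxy : x ≠ y) (h1 : x + y + z = 1)
    (h2 : x ^ 2 + y ^ 2 + z ^ 2 = l) (h3 : x ^ 3 + y ^ 3 + z ^ 3 = 3 / 2 * l ^ 2 * (1 - l)) : False := by
  have hz : z = 1 - x - y := by linarith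
  -- centred variables
  set p : ℝ := x - 1 / 3 with hp
  set q : ℝ := y - 1 / 3 with hq
  set d : ℝ := l - 1 / 3 with hd
  have hx' : x = p + 1 / 3 := by rw [hp]; ring
  have hy' : y = q + 1 / 3 := by rw [hq]; ring
  have hl' : l = d + 1 / 3 := by rw [hd]; ring
  have e2 : 2 * (p ^ 2 + p * q + q ^ 2) = d := by
    rw [hz, hx', hy', hl'] at h2
    linarith
  have e3 : -3 * (p * q * (p + q)) = -d / 2 - 3 / 2 * d ^ 3 := by
    rw [hz, hx', hy', hl'] at h3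
    nlinarith [h3, e2]
  have hpq : p ≠ q := by
    intro h
    apply hxy
    rw [hx', hy', h]
  have hdpos : 0 < d := by
    rw [← e2]
    have : 0 < (p - q) ^ 2 := by positivity
    nlinarith [sq_nonneg (p + q)]
  have hdisc : 6 * (3 * (p * q * (p + q))) ^ 2 ≤ d ^ 3 := by
    rw [← e2]
    have : 0 ≤ ((p - q) * (2 * p + q) * (p + 2 * q)) ^ 2 := sq_nonneg _
    nlinarith [this]
  have e4 : 3 * (p * q * (p + q)) = d / 2 + 3 / 2 * d ^ 3 := by linarith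
  rw [e4] at hdisc
  have : 6 * (1 / 2 + 3 / 2 * d ^ 2) ^ 2 ≤ d := by
    have h5 : 6 * (d / 2 + 3 / 2 * d ^ 3) ^ 2 = d ^ 2 * (6 * (1 / 2 + 3 / 2 * d ^ 2) ^ 2) := by ring
    rw [h5] at hdisc
    have h6 : d ^ 3 = d ^ 2 * d := by ring
    rw [h6] at hdisc
    exact le_of_mul_le_mul_left hdisc (by positivity)
  nlinarith [sq_nonneg (d - 1 / 18), sq_nonneg (d ^ 2)]

/-- arrays `x_i + y_j`. -/
theorem no_add {x0 x1 x2 y0 y1 y2 t : ℝ} (hx01 : x0 ≠ x1) (hx02 : x0 ≠ x2) (hx12 : x1 ≠ x2)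
    (hy01 : y0 ≠ y1) (hy02 : y0 ≠ y2) (hy12 : y1 ≠ y2)
    (r0 : (x0 + y0) ^ 3 + (x0 + y1) ^ 3 + (x0 + y2) ^ 3 = t)
    (r1 : (x1 + y0) ^ 3 + (x1 + y1) ^ 3 + (x1 + y2) ^ 3 = t)
    (r2 : (x2 + y0) ^ 3 + (x2 + y1) ^ 3 + (x2 + y2) ^ 3 = t)
    (c0 : (x0 + y0) ^ 3 + (x1 + y0) ^ 3 + (x2 + y0) ^ 3 = t)
    (c1 : (x0 + y1) ^ 3 + (x1 + y1) ^ 3 + (x2 + y1) ^ 3 = t)
    (c2 : (x0 + y2) ^ 3 + (x1 + y2) ^ 3 + (x2 + y2) ^ 3 = t) : False := by
  obtain ⟨a1, a2, -⟩ := vieta (A := 3) (B := 3 * (y0 + y1 + y2)) (C := 3 * (y0 ^ 2 + y1 ^ 2 + y2 ^ 2))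
    (D := y0 ^ 3 + y1 ^ 3 + y2 ^ 3 - t) hx01 hx02 hx12 (by linear_combination r0)
    (by linear_combination r1) (by linear_combination r2)
  obtain ⟨b1, b2, -⟩ := vieta (A := 3) (B := 3 * (x0 + x1 + x2)) (C := 3 * (x0 ^ 2 + x1 ^ 2 + x2 ^ 2))
    (D := x0 ^ 3 + x1 ^ 3 + x2 ^ 3 - t) hy01 hy02 hy12 (by linear_combination c0)
    (by linear_combination c1) (by linear_combination c2)
  have hs : y0 + y1 + y2 = -(x0 + x1 + x2) := by linarith
  have hs2 : (y0 + y1 + y2) ^ 2 = (x0 + x1 + x2) ^ 2 := by rw [hs]; ring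
  have : 0 < (x0 - x1) ^ 2 := by
    have := sub_ne_zero.2 hx01
    positivity
  nlinarith [sq_nonneg (x0 - x2), sq_nonneg (x1 - x2)]

theorem sq_pos' {a b : ℝ} (c : ℝ) (h : a ≠ b) : 0 < a ^ 2 + b ^ 2 + c ^ 2 := by
  have h1 : 0 < (a - b) ^ 2 := by
    have := sub_ne_zero.2 h
    positivity
  nlinarith [sq_nonneg (a + b), sq_nonneg c]

/-- arrays `x_i y_j + w`: only `w = 0` and `∑ x_i³ = ∑ y_j³ = 0` is possible. -/
theorem of_mul {x0 x1 x2 y0 y1 y2 w t : ℝ} (hx01 : x0 ≠ x1) (hx02 : x0 ≠ x2)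
    (hx12 : x1 ≠ x2) (hy01 : y0 ≠ y1) (hy02 : y0 ≠ y2) (hy12 : y1 ≠ y2)
    (r0 : (x0 * y0 + w) ^ 3 + (x0 * y1 + w) ^ 3 + (x0 * y2 + w) ^ 3 = t)
    (r1 : (x1 * y0 + w) ^ 3 + (x1 * y1 + w) ^ 3 + (x1 * y2 + w) ^ 3 = t)
    (r2 : (x2 * y0 + w) ^ 3 + (x2 * y1 + w) ^ 3 + (x2 * y2 + w) ^ 3 = t)
    (c0 : (x0 * y0 + w) ^ 3 + (x1 * y0 + w) ^ 3 + (x2 * y0 + w) ^ 3 = t)
    (c1 : (x0 * y1 + w) ^ 3 + (x1 * y1 + w) ^ 3 + (x2 * y1 + w) ^ 3 = t)
    (c2 : (x0 * y2 + w) ^ 3 + (x1 * y2 + w) ^ 3 + (x2 * y2 + w) ^ 3 = t) :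
    w = 0 ∧ x0 ^ 3 + x1 ^ 3 + x2 ^ 3 = 0 ∧ y0 ^ 3 + y1 ^ 3 + y2 ^ 3 = 0 := by
  obtain ⟨a1, a2, a3⟩ := vieta (A := y0 ^ 3 + y1 ^ 3 + y2 ^ 3) (B := 3 * w * (y0 ^ 2 + y1 ^ 2 + y2 ^ 2))
    (C := 3 * w ^ 2 * (y0 + y1 + y2)) (D := 3 * w ^ 3 - t) hx01 hx02 hx12
    (by linear_combination r0) (by linear_combination r1) (by linear_combination r2)
  obtain ⟨b1, b2, b3⟩ := vieta (A := x0 ^ 3 + x1 ^ 3 + x2 ^ 3) (B := 3 * w * (x0 ^ 2 + x1 ^ 2 + x2 ^ 2))
    (C := 3 * w ^ 2 * (x0 + x1 + x2)) (D := 3 * w ^ 3 - t) hy01 hy02 hy12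
    (by linear_combination c0) (by linear_combination c1) (by linear_combination c2)
  set X1 : ℝ := x0 + x1 + x2 with hX1
  set Y1 : ℝ := y0 + y1 + y2 with hY1
  set X2 : ℝ := x0 ^ 2 + x1 ^ 2 + x2 ^ 2 with hX2
  set Y2 : ℝ := y0 ^ 2 + y1 ^ 2 + y2 ^ 2 with hY2
  set X3 : ℝ := x0 ^ 3 + x1 ^ 3 + x2 ^ 3 with hX3
  set Y3 : ℝ := y0 ^ 3 + y1 ^ 3 + y2 ^ 3 with hY3
  have ex : x0 * x1 + x0 * x2 + x1 * x2 = (X1 ^ 2 - X2) / 2 := by rw [hX1, hX2]; ring
  have ey : y0 * y1 + y0 * y2 + y1 * y2 = (Y1 ^ 2 - Y2) / 2 := by rw [hY1, hY2]; ring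
  rw [ex] at a2
  rw [ey] at b2
  have pX2 : 0 < X2 := sq_pos' x2 hx01
  have pY2 : 0 < Y2 := sq_pos' y2 hy01
  clear_value X1 X2 X3 Y1 Y2 Y3
  rcases eq_or_ne w 0 with hw | hw
  · subst hw
    refine ⟨rfl, ?_, ?_⟩
    · by_contra hne
      have h1 : X3 * Y1 = 0 := by linarith
      have h2 : Y1 = 0 := (mul_eq_zero.1 h1).resolve_left hne
      have h3 : X3 * ((Y1 ^ 2 - Y2) / 2) = 0 := by linarith
      have h4 : (Y1 ^ 2 - Y2) / 2 = 0 := (mul_eq_zero.1 h3).resolve_left hne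
      rw [h2] at h4
      linarith
    · by_contra hne
      have h1 : Y3 * X1 = 0 := by linarith
      have h2 : X1 = 0 := (mul_eq_zero.1 h1).resolve_left hne
      have h3 : Y3 * ((X1 ^ 2 - X2) / 2) = 0 := by linarith
      have h4 : (X1 ^ 2 - X2) / 2 = 0 := (mul_eq_zero.1 h3).resolve_left hne
      rw [h2] at h4
      linarith
  · have nYX : Y3 * X1 ≠ 0 := by
      intro h
      have : 3 * w * Y2 = 0 := by linarith
      have h5 : 3 * w ≠ 0 := by positivity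
      exact (mul_ne_zero h5 pY2.ne') this
    have nXY : X3 * Y1 ≠ 0 := by
      intro h
      have : 3 * w * X2 = 0 := by linarith
      have h5 : 3 * w ≠ 0 := by positivity
      exact (mul_ne_zero h5 pX2.ne') this
    have nX1 : X1 ≠ 0 := right_ne_zero_of_mul nYX
    have nY1 : Y1 ≠ 0 := right_ne_zero_of_mul nXY
    have e5 : 2 * w * X1 * Y1 = -(Y2 * (X1 ^ 2 - X2)) := by
      have h5 : 3 * w ≠ 0 := by positivity
      apply mul_left_cancel₀ h5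
      linear_combination 2 * X1 * a2 + (X1 ^ 2 - X2) * a1
    have e6 : 2 * w * X1 * Y1 = -(X2 * (Y1 ^ 2 - Y2)) := by
      have h5 : 3 * w ≠ 0 := by positivity
      apply mul_left_cancel₀ h5
      linear_combination 2 * Y1 * b2 + (Y1 ^ 2 - Y2) * b1
    have e7 : Y2 * X1 ^ 2 = X2 * Y1 ^ 2 := by linarith
    obtain ⟨l, hl⟩ : ∃ l : ℝ, l = X2 / X1 ^ 2 := ⟨_, rfl⟩
    have hX2l : X2 = l * X1 ^ 2 := by
      rw [hl]
      field_simp
    have hY2l : Y2 = l * Y1 ^ 2 := by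
      have h8 : X1 ^ 2 ≠ 0 := by positivity
      apply mul_right_cancel₀ h8
      rw [e7, hX2l]
      ring
    have e8 : 2 * w = -(l * (1 - l) * X1 * Y1) := by
      have h8 : X1 * Y1 ≠ 0 := mul_ne_zero nX1 nY1
      apply mul_right_cancel₀ h8
      have := e5
      rw [hX2l, hY2l] at this
      linear_combination this
    have e9 : X3 = 3 / 2 * l ^ 2 * (1 - l) * X1 ^ 3 := by
      apply mul_right_cancel₀ nY1
      rw [hX2l] at b1
      linear_combination b1 - 3 / 2 * l * X1 ^ 2 * e8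
    exfalso
    refine real_cubic (x := x0 / X1) (y := x1 / X1) (z := x2 / X1) (l := l) ?_ ?_ ?_ ?_
    · intro h
      exact hx01 ((div_left_inj' nX1).1 h)
    · rw [← add_div, ← add_div, ← hX1, div_self nX1]
    · rw [hl, div_pow, div_pow, div_pow, ← add_div, ← add_div, ← hX2]
    · rw [div_pow, div_pow, div_pow, ← add_div, ← add_div, ← hX3, e9]
      exact mul_div_cancel_right₀ _ (pow_ne_zero 3 nX1)

/-- A 3 × 3 array of distinct real numbers of the form `α u_i v_j + β u_i + γ v_j + δ` whose cubes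
are semi-magic is of the form `x_i y_j` with `∑ x_i³ = ∑ y_j³ = 0`. -/
theorem bilinear_real {n : Fin 3 → Fin 3 → ℝ} {t : ℝ}
    (inj : ∀ i j i' j', n i j = n i' j' → i = i' ∧ j = j') (hr : ∀ i, ∑ j, n i j ^ 3 = t)
    (hc : ∀ j, ∑ i, n i j ^ 3 = t) {α β γ δ : ℝ} {u v : Fin 3 → ℝ}
    (h : ∀ i j, n i j = α * u i * v j + β * u i + γ * v j + δ) :
    ∃ x y : Fin 3 → ℝ, (∀ i j, n i j = x i * y j) ∧ ∑ i, x i ^ 3 = 0 ∧ ∑ j, y j ^ 3 = 0 := by
  have R : ∀ i, n i 0 ^ 3 + n i 1 ^ 3 + n i 2 ^ 3 = t := by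
    intro i
    have := hr i
    rwa [Fin.sum_univ_three] at this
  have C : ∀ j, n 0 j ^ 3 + n 1 j ^ 3 + n 2 j ^ 3 = t := by
    intro i
    have := hc i
    rwa [Fin.sum_univ_three] at this
  rcases eq_or_ne α 0 with ha | ha
  · exfalso
    have hN : ∀ i j, n i j = (β * u i + δ) + γ * v j := by
      intro i j
      rw [h, ha]
      ring
    have hx : ∀ i i', i ≠ i' → β * u i + δ ≠ β * u i' + δ := by
      intro i i' hne he
      apply hne
      refine (inj i 0 i' 0 ?_).1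
      rw [hN, hN, he]
    have hy : ∀ j j', j ≠ j' → γ * v j ≠ γ * v j' := by
      intro j j' hne he
      apply hne
      refine (inj 0 j 0 j' ?_).2
      rw [hN, hN, he]
    simp only [hN] at R C
    exact no_add (hx 0 1 (by decide)) (hx 0 2 (by decide)) (hx 1 2 (by decide))
      (hy 0 1 (by decide)) (hy 0 2 (by decide)) (hy 1 2 (by decide)) (R 0) (R 1) (R 2)
      (C 0) (C 1) (C 2)
  · have hN : ∀ i j, n i j = (α * u i + γ) * (v j + β / α) + (δ - β * γ / α) := by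
      intro i j
      rw [h]
      field_simp
      ring
    have hx : ∀ i i', i ≠ i' → α * u i + γ ≠ α * u i' + γ := by
      intro i i' hne he
      apply hne
      refine (inj i 0 i' 0 ?_).1
      rw [hN, hN, he]
    have hy : ∀ j j', j ≠ j' → v j + β / α ≠ v j' + β / α := by
      intro j j' hne he
      apply hne
      refine (inj 0 j 0 j' ?_).2
      rw [hN, hN, he]
    have R' := R
    have C' := C
    simp only [hN] at R' C'
    obtain ⟨e1, e2, e3⟩ := of_mul (hx 0 1 (by decide)) (hx 0 2 (by decide)) (hx 1 2 (by decide))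
      (hy 0 1 (by decide)) (hy 0 2 (by decide)) (hy 1 2 (by decide)) (R' 0) (R' 1) (R' 2)
      (C' 0) (C' 1) (C' 2)
    refine ⟨fun i => α * u i + γ, fun j => v j + β / α, fun i j => ?_, ?_, ?_⟩
    · rw [hN, e1, add_zero]
    · rw [Fin.sum_univ_three]
      exact e2
    · rw [Fin.sum_univ_three]
      exact e3

/-- Conversely these arrays have semi-magic cubes, with line sum zero. -/
theorem prod_semimagic {x y : Fin 3 → ℝ} (hx : ∑ i, x i ^ 3 = 0) (hy : ∑ j, y j ^ 3 = 0) :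
    (∀ i, ∑ j, (x i * y j) ^ 3 = 0) ∧ ∀ j, ∑ i, (x i * y j) ^ 3 = 0 := by
  constructor
  · intro i
    simp only [mul_pow]
    rw [← Finset.mul_sum, hy, mul_zero]
  · intro j
    simp only [mul_pow]
    rw [← Finset.sum_mul, hx, zero_mul]

/-- three integers whose cubes have the sum zero: one of them is zero (Fermat for exponent 3). -/
theorem zero_of_cubes {a b c : ℤ} (h : a ^ 3 + b ^ 3 + c ^ 3 = 0) : a = 0 ∨ b = 0 ∨ c = 0 := by
  by_contra hne
  push Not at hne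
  have := (fermatLastTheoremFor_iff_int.1 fermatLastTheoremThree) a b (-c) hne.1 hne.2.1
    (neg_ne_zero.2 hne.2.2)
  apply this
  linear_combination h

/-- the sum of the lines is not zero if the nine bases are distinct. -/
theorem sum_ne_zero {n : Fin 3 → Fin 3 → ℤ} {t : ℤ}
    (inj : ∀ i j i' j', n i j = n i' j' → i = i' ∧ j = j') (hr : ∀ i, ∑ j, n i j ^ 3 = t) :
    t ≠ 0 := by
  intro ht
  have key : ∀ i, ∃ j, n i j = 0 := by
    intro i
    have := hr i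
    rw [Fin.sum_univ_three, ht] at this
    rcases zero_of_cubes this with h | h | h
    · exact ⟨0, h⟩
    · exact ⟨1, h⟩
    · exact ⟨2, h⟩
  obtain ⟨j, hj⟩ := key 0
  obtain ⟨k, hk⟩ := key 1
  have := (inj 0 j 1 k (hj.trans hk.symm)).1
  exact absurd this (by decide)

/-- The bases of a semi-magic square of distinct cubes of integers (of any sign) are never of the
form `α u_i v_j + β u_i + γ v_j + δ`. -/
theorem no_bilinear {n : Fin 3 → Fin 3 → ℤ} {t : ℤ}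
    (inj : ∀ i j i' j', n i j = n i' j' → i = i' ∧ j = j') (hr : ∀ i, ∑ j, n i j ^ 3 = t)
    (hc : ∀ j, ∑ i, n i j ^ 3 = t) (α β γ δ : ℝ) (u v : Fin 3 → ℝ)
    (h : ∀ i j, (n i j : ℝ) = α * u i * v j + β * u i + γ * v j + δ) : False := by
  have hrR : ∀ i, ∑ j, ((n i j : ℤ) : ℝ) ^ 3 = (t : ℝ) := by
    intro i
    exact_mod_cast hr i
  have hcR : ∀ j, ∑ i, ((n i j : ℤ) : ℝ) ^ 3 = (t : ℝ) := by
    intro j
    exact_mod_cast hc j
  obtain ⟨x, y, hxy, h1, h2⟩ := bilinear_real (n := fun i j => (n i j : ℝ)) (t := (t : ℝ))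
    (fun i j i' j' he => inj i j i' j' (by exact_mod_cast he)) hrR hcR h
  have ht : (t : ℝ) ≠ 0 := by exact_mod_cast sum_ne_zero inj hr
  apply ht
  rw [← hrR 0]
  have e : ∀ j, ((n 0 j : ℤ) : ℝ) = x 0 * y j := fun j => hxy 0 j
  simp only [e, mul_pow]
  rw [← Finset.mul_sum, h2, mul_zero]

end Pool.Agent.H54.SC
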