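import Mathlib

/-! Sums of two cubes and primes `p ≡ 2 (mod 3)`. -/

set_option autoImplicit false

namespace Pool.Agent.H54.SC

/-- a prime `p ≡ 2 (mod 3)` divides `x² - x y + y²` only if it divides `x` and `y`. -/
theorem not_dvd_norm {p : ℕ} (hp : p.Prime) (h3 : p % 3 = 2) {x y : ℤ}
    (h : (p : ℤ) ∣ x ^ 2 - x * y + y ^ 2) : (p : ℤ) ∣ x ∧ (p : ℤ) ∣ y := by
  have := Fact.mk hp
  have hX : ((x : ZMod p)) ^ 2 - (x : ZMod p) * (y : ZMod p) + (y : ZMod p) ^ 2 = 0 := by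
    have := (ZMod.intCast_zmod_eq_zero_iff_dvd (x ^ 2 - x * y + y ^ 2) p).2 h
    push_cast at this
    exact this
  have key : ∀ a b : ZMod p, a ^ 2 - a * b + b ^ 2 = 0 → b = 0 := by
    intro a b hab
    by_contra hb
    set z : ZMod p := -(a / b) with hz
    have hz2 : z ^ 2 + z + 1 = 0 := by
      rw [hz]
      field_simp
      linear_combination hab
    have hz3 : z ^ 3 = 1 := by linear_combination (z - 1) * hz2
    have hz1 : z ≠ 1 := by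
      intro h1
      rw [h1] at hz2
      have h30 : ((3 : ℕ) : ZMod p) = 0 := by
        push_cast
        linear_combination hz2
      rw [ZMod.natCast_eq_zero_iff] at h30
      have := (Nat.prime_dvd_prime_iff_eq hp Nat.prime_three).1 h30
      omega
    have hord : orderOf z = 3 := orderOf_eq_prime hz3 hz1
    have hz0 : z ≠ 0 := by
      intro h0
      rw [h0] at hz3
      norm_num at hz3
    have hcard : z ^ (p - 1) = 1 := ZMod.pow_card_sub_one_eq_one hz0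
    have hdvd : 3 ∣ p - 1 := hord ▸ orderOf_dvd_of_pow_eq_one hcard
    have := hp.two_le
    omega
  have hy : (y : ZMod p) = 0 := key _ _ hX
  have hx : (x : ZMod p) = 0 := by
    refine key (y : ZMod p) (x : ZMod p) ?_
    linear_combination hX
  exact ⟨(ZMod.intCast_zmod_eq_zero_iff_dvd x p).1 hx, (ZMod.intCast_zmod_eq_zero_iff_dvd y p).1 hy⟩

theorem sum_cubes (x y : ℤ) : x ^ 3 + y ^ 3 = (x + y) * (x ^ 2 - x * y + y ^ 2) := by ring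

/-- the full power of `p ≡ 2 (mod 3)` in `x³ + y³` divides `x + y`. -/
theorem pow_dvd_add {p e : ℕ} (hp : p.Prime) (h3 : p % 3 = 2) {x y : ℤ}
    (hd : (p : ℤ) ^ e ∣ x ^ 3 + y ^ 3) (h1 : ¬ ((p : ℤ) ∣ x ∧ (p : ℤ) ∣ y)) :
    (p : ℤ) ^ e ∣ x + y := by
  rw [sum_cubes] at hd
  have hp' : Prime (p : ℤ) := Nat.prime_iff_prime_int.1 hp
  have hn : ¬ (p : ℤ) ∣ x ^ 2 - x * y + y ^ 2 := fun h => h1 (not_dvd_norm hp h3 h)
  have hc : IsCoprime ((p : ℤ) ^ e) (x ^ 2 - x * y + y ^ 2) :=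
    IsCoprime.pow_left ((hp'.coprime_iff_not_dvd).2 hn)
  exact hc.dvd_of_dvd_mul_right hd

/-- (DIV) for a prime power `p ^ e`, `p ≡ 2 (mod 3)`. -/
theorem div_pow {p e : ℕ} (hp : p.Prime) (h3 : p % 3 = 2) {x y u v : ℤ}
    (h : x ^ 3 + y ^ 3 = u ^ 3 + v ^ 3) (hd : (p : ℤ) ^ e ∣ x ^ 3 + y ^ 3)
    (h1 : ¬ ((p : ℤ) ∣ x ∧ (p : ℤ) ∣ y)) (h2 : ¬ ((p : ℤ) ∣ u ∧ (p : ℤ) ∣ v)) :
    (p : ℤ) ^ e ∣ (x + y) - (u + v) :=
  dvd_sub (pow_dvd_add hp h3 hd h1) (pow_dvd_add hp h3 (h ▸ hd) h2)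

/-- (DIV) for a prime `p ≡ 2 (mod 3)`, no condition on the partners. -/
theorem div_one {p : ℕ} (hp : p.Prime) (h3 : p % 3 = 2) {x y u v : ℤ}
    (h : x ^ 3 + y ^ 3 = u ^ 3 + v ^ 3) (hd : (p : ℤ) ∣ x ^ 3 + y ^ 3) :
    (p : ℤ) ∣ (x + y) - (u + v) := by
  have key : ∀ a b : ℤ, (p : ℤ) ∣ a ^ 3 + b ^ 3 → (p : ℤ) ∣ a + b := by
    intro a b hab
    by_cases hh : (p : ℤ) ∣ a ∧ (p : ℤ) ∣ b
    · exact dvd_add hh.1 hh.2
    · have := pow_dvd_add (e := 1) hp h3 (by simpa using hab) hh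
      simpa using this
  exact dvd_sub (key x y hd) (key u v (h ▸ hd))

/-- `3 ^ (e + 1) ∣ x³ + y³` gives `3 ^ e ∣ x + y`, unless `3` divides `x` and `y`. -/
theorem three_pow_dvd_add {e : ℕ} {x y : ℤ} (hd : (3 : ℤ) ^ (e + 1) ∣ x ^ 3 + y ^ 3)
    (h1 : ¬ ((3 : ℤ) ∣ x ∧ (3 : ℤ) ∣ y)) : (3 : ℤ) ^ e ∣ x + y := by
  have hp' : Prime (3 : ℤ) := Int.prime_three
  have h3 : (3 : ℤ) ∣ x ^ 3 + y ^ 3 := (dvd_pow_self 3 (Nat.succ_ne_zero e)).trans hd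
  have hs : (3 : ℤ) ∣ x + y := by
    have e1 : (x + y) ^ 3 = (x ^ 3 + y ^ 3) + 3 * (x * y * (x + y)) := by ring
    exact hp'.dvd_of_dvd_pow (e1 ▸ dvd_add h3 (dvd_mul_right 3 _))
  obtain ⟨k, hk⟩ := hs
  have hxy : ¬ (3 : ℤ) ∣ x * y := by
    intro hxy
    apply h1
    rcases hp'.dvd_or_dvd hxy with hx | hy
    · exact ⟨hx, (Int.dvd_iff_dvd_of_dvd_add ⟨k, hk⟩).1 hx⟩
    · exact ⟨(Int.dvd_iff_dvd_of_dvd_add ⟨k, hk⟩).2 hy, hy⟩
  have e2 : x ^ 3 + y ^ 3 = 3 * ((x + y) * (3 * k ^ 2 - x * y)) := by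
    have : x ^ 3 + y ^ 3 = (x + y) * ((x + y) ^ 2 - 3 * (x * y)) := by ring
    rw [this]
    nth_rewrite 2 [hk]
    ring
  rw [e2, pow_succ', mul_dvd_mul_iff_left (by norm_num)] at hd
  have hn : ¬ (3 : ℤ) ∣ 3 * k ^ 2 - x * y := by
    intro hh
    apply hxy
    have := dvd_sub (dvd_mul_right 3 (k ^ 2)) hh
    simpa using this
  have hc : IsCoprime ((3 : ℤ) ^ e) (3 * k ^ 2 - x * y) :=
    IsCoprime.pow_left ((hp'.coprime_iff_not_dvd).2 hn)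
  exact hc.dvd_of_dvd_mul_right hd

theorem div_three {e : ℕ} {x y u v : ℤ}
    (h : x ^ 3 + y ^ 3 = u ^ 3 + v ^ 3) (hd : (3 : ℤ) ^ (e + 1) ∣ x ^ 3 + y ^ 3)
    (h1 : ¬ ((3 : ℤ) ∣ x ∧ (3 : ℤ) ∣ y)) (h2 : ¬ ((3 : ℤ) ∣ u ∧ (3 : ℤ) ∣ v)) :
    (3 : ℤ) ^ e ∣ (x + y) - (u + v) :=
  dvd_sub (three_pow_dvd_add hd h1) (three_pow_dvd_add (h ▸ hd) h2)

/-- the sum over a line of three cells, from any cell on. -/
theorem sum_line (f : Fin 3 → ℤ) (j : Fin 3) : ∑ k, f k = f j + (f (j + 1) + f (j + 2)) := by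
  rw [Fin.sum_univ_three]
  fin_cases j
  · show f 0 + f 1 + f 2 = f 0 + (f 1 + f 2)
    ring
  · show f 0 + f 1 + f 2 = f 1 + (f 2 + f 0)
    ring
  · show f 0 + f 1 + f 2 = f 2 + (f 0 + f 1)
    ring

theorem other (j k : Fin 3) (h : k ≠ j) : k = j + 1 ∨ k = j + 2 := by
  revert j k
  decide

/-- (DIV) in a square: every power of a prime `p ≡ 2 (mod 3)` which divides `t - n_ij³` divides
`R_i - C_j`, unless `p` divides both row partners or both column partners of the cell. -/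
theorem div_cell {n : Fin 3 → Fin 3 → ℤ} {t : ℤ} (hr : ∀ i, ∑ j, n i j ^ 3 = t)
    (hc : ∀ j, ∑ i, n i j ^ 3 = t) {p e : ℕ} (hp : p.Prime) (h3 : p % 3 = 2) (i j : Fin 3)
    (hd : (p : ℤ) ^ e ∣ t - n i j ^ 3) (h1 : ∃ j', j' ≠ j ∧ ¬ (p : ℤ) ∣ n i j')
    (h2 : ∃ i', i' ≠ i ∧ ¬ (p : ℤ) ∣ n i' j) :
    (p : ℤ) ^ e ∣ (∑ j', n i j') - ∑ i', n i' j := by
  have hri := hr i
  have hcj := hc j
  rw [sum_line (fun k => n i k ^ 3) j] at hri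
  rw [sum_line (fun k => n k j ^ 3) i] at hcj
  rw [sum_line (fun k => n i k) j, sum_line (fun k => n k j) i]
  have h4 : ¬ ((p : ℤ) ∣ n i (j + 1) ∧ (p : ℤ) ∣ n i (j + 2)) := by
    rintro ⟨a, b⟩
    obtain ⟨k, hk, hn⟩ := h1
    rcases other j k hk with rfl | rfl
    · exact hn a
    · exact hn b
  have h5 : ¬ ((p : ℤ) ∣ n (i + 1) j ∧ (p : ℤ) ∣ n (i + 2) j) := by
    rintro ⟨a, b⟩
    obtain ⟨k, hk, hn⟩ := h2
    rcases other i k hk with rfl | rfl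
    · exact hn a
    · exact hn b
  have hd' : (p : ℤ) ^ e ∣ n i (j + 1) ^ 3 + n i (j + 2) ^ 3 := by
    have : n i (j + 1) ^ 3 + n i (j + 2) ^ 3 = t - n i j ^ 3 := by linarith
    rwa [this]
  have := div_pow hp h3 (x := n i (j + 1)) (y := n i (j + 2)) (u := n (i + 1) j)
    (v := n (i + 2) j) (by linarith) hd' h4 h5
  convert this using 1
  ring

/-- (DIV) in a square, first powers: every prime `p ≡ 2 (mod 3)` which divides `t - n_ij³` divides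
`R_i - C_j`. -/
theorem div_cell_one {n : Fin 3 → Fin 3 → ℤ} {t : ℤ} (hr : ∀ i, ∑ j, n i j ^ 3 = t)
    (hc : ∀ j, ∑ i, n i j ^ 3 = t) {p : ℕ} (hp : p.Prime) (h3 : p % 3 = 2) (i j : Fin 3)
    (hd : (p : ℤ) ∣ t - n i j ^ 3) : (p : ℤ) ∣ (∑ j', n i j') - ∑ i', n i' j := by
  have hri := hr i
  have hcj := hc j
  rw [sum_line (fun k => n i k ^ 3) j] at hri
  rw [sum_line (fun k => n k j ^ 3) i] at hcj
  rw [sum_line (fun k => n i k) j, sum_line (fun k => n k j) i]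
  have hd' : (p : ℤ) ∣ n i (j + 1) ^ 3 + n i (j + 2) ^ 3 := by
    have : n i (j + 1) ^ 3 + n i (j + 2) ^ 3 = t - n i j ^ 3 := by linarith
    rwa [this]
  have := div_one hp h3 (x := n i (j + 1)) (y := n i (j + 2)) (u := n (i + 1) j)
    (v := n (i + 2) j) (by linarith) hd'
  convert this using 1
  ring

end Pool.Agent.H54.SC
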